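import Mathlib
import Pool.Agent.MP_9e8696_an.H67.Markov

/-!
Polynomials in `1 / r`: extrapolation to `r = ∞`, and averages over random maps into `Fin r` of
functions of the kernel.
-/

namespace Pool.Agent.MP_9e8696_an.H3

open Finset Polynomial
open scoped BigOperators

lemma near (P : ℝ[X]) (D : ℕ) (hP : P.natDegree ≤ D) (K : ℝ) (hK : 0 < K)
    (hb : ∀ u ∈ Set.Icc (0 : ℝ) 1, |P.eval u| ≤ K) (u : ℝ) (hu : 2 * (D : ℝ) ^ 2 * |u| ≤ 1 / 3) :
    |P.eval u - P.eval 0| ≤ K / 2 := by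
  have h1 : P.eval u - P.eval 0 = ∑ i ∈ range D, P.coeff (i + 1) * u ^ (i + 1) := by
    rw [eval_eq_sum_range' (Nat.lt_succ_of_le hP) u, sum_range_succ', ← coeff_zero_eq_eval_zero]
    simp
  have h2 : ∀ i, |P.coeff (i + 1) * u ^ (i + 1)| ≤ K / 3 * (1 / 3) ^ i := fun i => by
    rw [abs_mul, abs_pow]
    calc |P.coeff (i + 1)| * |u| ^ (i + 1)
        ≤ K * (2 * (D : ℝ) ^ 2) ^ (i + 1) * |u| ^ (i + 1) := by
          gcongr
          exact H67.coeff_bound P D hP K hK hb _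
      _ = K * (2 * (D : ℝ) ^ 2 * |u|) ^ (i + 1) := by rw [mul_pow _ |u|]; ring
      _ ≤ K * (1 / 3) ^ (i + 1) := by gcongr
      _ = K / 3 * (1 / 3) ^ i := by ring
  have h3 : ∀ n : ℕ, ∑ i ∈ range n, (1 / 3 : ℝ) ^ i = 3 / 2 - 3 / 2 * (1 / 3) ^ n := fun n => by
    induction n with
    | zero => simp
    | succ n ih => rw [sum_range_succ, ih]; ring
  rw [h1]
  refine (abs_sum_le_sum_abs _ _).trans ((sum_le_sum fun i _ => h2 i).trans ?_)
  rw [← mul_sum, h3]
  have : (0 : ℝ) ≤ (1 / 3) ^ D := by positivity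
  nlinarith

/-- A polynomial of degree at most `D` that is small at the points `1 / r`, `r ≤ 144 D ^ 4`, is
small at the origin. -/
lemma nodes (q : ℝ[X]) (D : ℕ) (hD : 1 ≤ D) (hq : q.natDegree ≤ D) (B : ℝ)
    (hB : ∀ r : ℕ, 1 ≤ r → r ≤ 144 * D ^ 4 → |q.eval (1 / (r : ℝ))| ≤ B) :
    |q.eval 0| ≤ 2 * B := by
  have hD' : (1 : ℝ) ≤ D := by exact_mod_cast hD
  obtain ⟨R, hR⟩ : ∃ R : ℝ, R = 12 * (D : ℝ) ^ 2 := ⟨_, rfl⟩
  have hR1 : 12 ≤ R := by rw [hR]; nlinarith
  have hR0 : 0 < R := by linarith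
  obtain ⟨t, ht, hmax⟩ := (isCompact_Icc (a := (0 : ℝ)) (b := 1 / R)).exists_isMaxOn
    ⟨0, le_rfl, by positivity⟩ (q.continuous.abs.continuousOn)
  have hmax' : ∀ s ∈ Set.Icc (0 : ℝ) (1 / R), |q.eval s| ≤ |q.eval t| := fun s hs => hmax hs
  have hB0 : 0 ≤ B := (abs_nonneg _).trans (hB 1 le_rfl (by have := Nat.one_le_pow 4 D hD; omega))
  refine (hmax' 0 ⟨le_rfl, by positivity⟩).trans ?_
  rcases (abs_nonneg (q.eval t)).eq_or_lt with hK | hK
  · rw [← hK]; positivity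
  obtain ⟨r, hr1, hr2, hr3⟩ : ∃ r : ℕ, 1 ≤ r ∧ r ≤ 144 * D ^ 4 ∧ |1 / (r : ℝ) - t| ≤ 1 / R ^ 2 := by
    have hRR : ((144 * D ^ 4 : ℕ) : ℝ) = R ^ 2 := by rw [hR]; push_cast; ring
    by_cases h : t ≤ 1 / R ^ 2
    · refine ⟨144 * D ^ 4, by have := Nat.one_le_pow 4 D hD; omega, le_rfl, ?_⟩
      rw [hRR, abs_le]
      constructor <;> linarith [ht.1]
    · push Not at h
      have ht0 : 0 < t := lt_trans (by positivity) h
      have h1 : R ≤ 1 / t := by
        rw [le_div_iff₀ ht0]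
        have := ht.2
        rw [le_div_iff₀ hR0] at this
        linarith
      have h2 : 1 / t < R ^ 2 := by
        rw [div_lt_iff₀ ht0]
        rw [div_lt_iff₀ (by positivity)] at h
        linarith
      have h3 : (1 / t) ≤ ⌈1 / t⌉₊ := Nat.le_ceil _
      have h4 : (⌈1 / t⌉₊ : ℝ) < 1 / t + 1 := Nat.ceil_lt_add_one (by positivity)
      refine ⟨⌈1 / t⌉₊, Nat.ceil_pos.2 (by positivity), Nat.ceil_le.2 (by rw [hRR]; exact h2.le), ?_⟩
      set r : ℝ := (⌈1 / t⌉₊ : ℝ)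
      have hr0 : 0 < r := by linarith
      have h5 : 1 ≤ r * t := by rwa [div_le_iff₀ ht0] at h3
      have h6 : r * t < 1 + t := by
        have := mul_lt_mul_of_pos_right h4 ht0
        rwa [add_mul, one_div, inv_mul_cancel₀ ht0.ne', one_mul] at this
      have h7 : t - 1 / r = (r * t - 1) / r := by field_simp
      have h8 : (r * t - 1) / r ≤ 1 / R ^ 2 := by
        rw [div_le_div_iff₀ hr0 (by positivity)]
        have h9 : t * R ≤ 1 := by have := ht.2; rwa [le_div_iff₀ hR0] at this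
        have h10 : (r * t - 1) * R ≤ 1 := by nlinarith
        nlinarith
      have h9 : 0 ≤ (r * t - 1) / r := div_nonneg (by linarith) hr0.le
      rw [abs_sub_comm, h7, abs_of_nonneg h9]
      exact h8
  obtain ⟨a, ha, hI⟩ : ∃ a : ℝ, |a| = 1 / (2 * R) ∧
      ∀ u ∈ Set.Icc (0 : ℝ) 1, a * u + t ∈ Set.Icc (0 : ℝ) (1 / R) := by
    have h2 : 1 / R = 2 * (1 / (2 * R)) := by field_simp
    have h3 : 0 < 1 / (2 * R) := by positivity
    by_cases h : t ≤ 1 / (2 * R)
    · refine ⟨1 / (2 * R), abs_of_pos h3, fun u hu => ⟨?_, ?_⟩⟩ <;> nlinarith [hu.1, hu.2, ht.1]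
    · push Not at h
      refine ⟨-(1 / (2 * R)), by rw [abs_neg, abs_of_pos h3], fun u hu => ⟨?_, ?_⟩⟩ <;>
        nlinarith [hu.1, hu.2, ht.2]
  have ha0 : a ≠ 0 := by
    rintro rfl
    rw [abs_zero] at ha
    exact absurd ha.symm (by positivity)
  have hdeg : (q.comp (C a * X + C t)).natDegree ≤ D := by
    refine natDegree_comp_le.trans ?_
    rw [natDegree_linear ha0, mul_one]
    exact hq
  have key := near _ D hdeg _ hK (fun u hu => by
    simpa [eval_comp] using hmax' _ (hI u hu)) ((1 / (r : ℝ) - t) / a) (by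
      rw [abs_div, ha, div_div_eq_mul_div, div_one]
      have h1 : |1 / (r : ℝ) - t| * R ^ 2 ≤ 1 := by rwa [le_div_iff₀ (by positivity)] at hr3
      have h2 : 2 * (D : ℝ) ^ 2 = R / 6 := by rw [hR]; ring
      rw [h2]
      nlinarith)
  simp only [eval_comp, eval_add, eval_mul, eval_C, eval_X, mul_zero, zero_add,
    mul_div_cancel₀ _ ha0, sub_add_cancel] at key
  have h1 := hB r hr1 hr2
  have h2 := abs_sub_abs_le_abs_sub (q.eval t) (q.eval (1 / (r : ℝ)))
  rw [abs_sub_comm] at h2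
  linarith

/-- `a r` is a polynomial in `1 / r` of degree at most `D` with constant term `a₀`. -/
def Pol (D : ℕ) (a : ℕ → ℝ) (a₀ : ℝ) : Prop :=
  ∃ P : ℝ[X], P.natDegree ≤ D ∧ P.eval 0 = a₀ ∧ ∀ r : ℕ, 1 ≤ r → a r = P.eval (1 / (r : ℝ))

lemma Pol.mono {D E : ℕ} {a : ℕ → ℝ} {a₀ : ℝ} (h : Pol D a a₀) (hDE : D ≤ E) : Pol E a a₀ := by
  obtain ⟨P, h1, h2⟩ := h
  exact ⟨P, h1.trans hDE, h2⟩

lemma Pol.congr {D : ℕ} {a b : ℕ → ℝ} {a₀ b₀ : ℝ} (h : Pol D a a₀)
    (h1 : ∀ r, 1 ≤ r → b r = a r) (h2 : b₀ = a₀) : Pol D b b₀ := by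
  obtain ⟨P, h3, h4, h5⟩ := h
  exact ⟨P, h3, h4.trans h2.symm, fun r hr => (h1 r hr).trans (h5 r hr)⟩

lemma Pol.sum {κ : Type*} (s : Finset κ) {D : ℕ} (c : κ → ℝ) {a : κ → ℕ → ℝ} {a₀ : κ → ℝ}
    (h : ∀ i ∈ s, c i ≠ 0 → Pol D (a i) (a₀ i)) :
    Pol D (fun r => ∑ i ∈ s, c i * a i r) (∑ i ∈ s, c i * a₀ i) := by
  have h' : ∀ i, ∃ P : ℝ[X], i ∈ s → P.natDegree ≤ D ∧ c i * P.eval 0 = c i * a₀ i ∧
      ∀ r : ℕ, 1 ≤ r → c i * a i r = c i * P.eval (1 / (r : ℝ)) := fun i => by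
    by_cases hi : i ∈ s ∧ c i ≠ 0
    · obtain ⟨P, h1, h2, h3⟩ := h i hi.1 hi.2
      exact ⟨P, fun _ => ⟨h1, by rw [h2], fun r hr => by rw [h3 r hr]⟩⟩
    · refine ⟨0, fun hs => ?_⟩
      have : c i = 0 := by simpa [hs] using hi
      simp [this]
  choose P hP using h'
  refine ⟨∑ i ∈ s, C (c i) * P i, natDegree_sum_le_of_forall_le _ _ fun i hi =>
    (natDegree_C_mul_le _ _).trans (hP i hi).1, ?_, fun r hr => ?_⟩
  · simp only [eval_finsetSum, eval_mul, eval_C]
    exact sum_congr rfl fun i hi => (hP i hi).2.1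
  · simp only [eval_finsetSum, eval_mul, eval_C]
    exact sum_congr rfl fun i hi => (hP i hi).2.2 r hr

lemma Pol.sub {D : ℕ} {a b : ℕ → ℝ} {a₀ b₀ : ℝ} (h : Pol D a a₀) (h' : Pol D b b₀) :
    Pol D (fun r => a r - b r) (a₀ - b₀) := by
  obtain ⟨P, h1, h2, h3⟩ := h
  obtain ⟨Q, h4, h5, h6⟩ := h'
  exact ⟨P - Q, (natDegree_sub_le _ _).trans (max_le h1 h4), by rw [eval_sub, h2, h5],
    fun r hr => by rw [eval_sub, ← h3 r hr, ← h6 r hr]⟩

lemma Pol.bound {D : ℕ} (hD : 1 ≤ D) {a : ℕ → ℝ} {a₀ : ℝ} (h : Pol D a a₀) :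
    |a₀| ≤ 2 * ∑ r ∈ Icc 1 (144 * D ^ 4), |a r| := by
  obtain ⟨P, h1, rfl, h3⟩ := h
  refine nodes P D hD h1 _ fun r hr hr' => ?_
  rw [← h3 r hr]
  exact single_le_sum (f := fun r => |a r|) (fun _ _ => abs_nonneg _) (mem_Icc.2 ⟨hr, hr'⟩)

lemma cast_descFactorial (r b : ℕ) :
    (r.descFactorial b : ℝ) = ∏ i ∈ range b, ((r : ℝ) - i) := by
  induction b with
  | zero => simp
  | succ b ih =>
    rw [Nat.descFactorial_succ, prod_range_succ, ← ih, Nat.cast_mul, mul_comm]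
    rcases le_or_gt b r with h | h
    · rw [Nat.cast_sub h]
    · rw [Nat.descFactorial_of_lt h]; simp

open Classical in
lemma card_ker {U : Type} [Fintype U] [DecidableEq U] (κ : Setoid U) (r : ℕ) :
    (univ.filter fun h : U → Fin r => Setoid.ker h = κ).card =
      r.descFactorial (Fintype.card (Quotient κ)) := by
  conv_rhs => rw [← Fintype.card_fin r, ← Fintype.card_embedding_eq, ← card_univ]
  symm
  refine card_bij (fun e _ => fun u => e (Quotient.mk κ u)) (fun e _ => ?_) (fun e _ e' _ h => ?_)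
    fun h hh => ?_
  · simp only [mem_filter, mem_univ, true_and]
    ext a b
    rw [Setoid.ker_def, e.injective.eq_iff, Quotient.eq]
  · ext x
    obtain ⟨u, rfl⟩ := Quotient.exists_rep x
    rw [congrFun h u]
  · simp only [mem_filter, mem_univ, true_and] at hh
    subst hh
    exact ⟨⟨_, Setoid.kerLift_injective h⟩, mem_univ _, rfl⟩

lemma pol_ker₀ {U : Type} [Fintype U] [DecidableEq U] (W : Setoid U → ℝ) :
    Pol (Fintype.card U) (fun r => 𝔼 h : U → Fin r, W (Setoid.ker h)) (W ⊥) := by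
  classical
  have : Finite (Setoid U) := Finite.of_injective (fun κ : Setoid U => κ.r) fun _ _ h =>
    Setoid.ext fun a b => iff_of_eq (congrFun (congrFun h a) b)
  have := Fintype.ofFinite (Setoid U)
  have hb : ∀ κ : Setoid U, Fintype.card (Quotient κ) ≤ Fintype.card U := fun κ =>
    Fintype.card_le_of_surjective _ Quotient.mk_surjective
  have key : ∀ κ : Setoid U, Pol (Fintype.card U)
      (fun r => (r.descFactorial (Fintype.card (Quotient κ)) : ℝ) / r ^ Fintype.card U)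
      (if κ = ⊥ then 1 else 0) := fun κ => by
    obtain ⟨j, hj⟩ := Nat.exists_eq_add_of_le (hb κ)
    refine ⟨X ^ j * ∏ i ∈ range (Fintype.card (Quotient κ)), (C (-(i : ℝ)) * X + C 1), ?_, ?_,
      fun r hr => ?_⟩
    · refine natDegree_mul_le.trans ?_
      have h1 : (∏ i ∈ range (Fintype.card (Quotient κ)),
          (C (-(i : ℝ)) * X + C 1)).natDegree ≤ Fintype.card (Quotient κ) := by
        refine (natDegree_prod_le _ _).trans ((sum_le_sum fun i _ => natDegree_linear_le).trans ?_)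
        simp
      rw [natDegree_X_pow]
      omega
    · simp only [eval_mul, eval_pow, eval_X, eval_prod, eval_add, eval_C, mul_zero, zero_add,
        prod_const_one, mul_one]
      split_ifs with h
      · have : Fintype.card U ≤ Fintype.card (Quotient κ) :=
          Fintype.card_le_of_injective (Quotient.mk κ) fun a b hab => by
            have h1 : κ a b := Quotient.exact hab
            rwa [h] at h1
        rw [show j = 0 by omega, pow_zero]
      · refine zero_pow fun h0 => h ?_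
        have := ((Fintype.bijective_iff_surjective_and_card (Quotient.mk κ)).2
          ⟨Quotient.mk_surjective, by omega⟩).1
        exact le_bot_iff.1 fun a b hab => this (Quotient.sound hab)
    · have hr0 : (r : ℝ) ≠ 0 := by positivity
      simp only [eval_mul, eval_pow, eval_X, eval_prod, eval_add, eval_C]
      rw [cast_descFactorial, hj, pow_add, ← div_div, mul_comm, one_div, inv_pow, ← div_eq_mul_inv]
      congr 1
      conv_lhs => rw [← card_range (Fintype.card (Quotient κ)), ← prod_const, card_range,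
        ← prod_div_distrib]
      exact prod_congr rfl fun i _ => by field_simp; ring
  refine (Pol.sum univ W fun κ _ _ => key κ).congr (fun r _ => ?_) (by simp)
  rw [Fintype.expect_eq_sum_div_card, ← sum_fiberwise univ fun h : U → Fin r => Setoid.ker h,
    sum_div]
  refine sum_congr rfl fun κ _ => ?_
  rw [sum_congr rfl fun h hh => congrArg W (mem_filter.1 hh).2, sum_const, card_ker, nsmul_eq_mul,
    mul_comm, mul_div_assoc]
  simp

/-- The average of a function of the kernel that only looks at the points of `U`. -/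
lemma pol_ker {V : Type} [Fintype V] [DecidableEq V] (U : Finset V) (W : Setoid V → ℝ)
    (hW : ∀ κ κ' : Setoid V, (∀ a ∈ U, ∀ b ∈ U, κ a b ↔ κ' a b) → W κ = W κ') :
    Pol U.card (fun r => 𝔼 g : V → Fin r, W (Setoid.ker g)) (W ⊥) := by
  let ext : Setoid U → Setoid V := fun κ =>
    Setoid.ker fun v => if h : v ∈ U then some (Quotient.mk κ ⟨v, h⟩) else none
  have hext : ∀ (κ : Setoid U) (a b : V) (ha : a ∈ U) (hb : b ∈ U),
      ext κ a b ↔ κ ⟨a, ha⟩ ⟨b, hb⟩ := fun κ a b ha hb => by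
    simp only [ext, Setoid.ker_def, dif_pos ha, dif_pos hb, Option.some.injEq, Quotient.eq]
  have h := pol_ker₀ fun κ : Setoid U => W (ext κ)
  rw [Fintype.card_coe] at h
  refine h.congr (fun r hr => ?_) (hW _ _ fun a ha b hb => ?_)
  · have : Nonempty (Fin r) := ⟨⟨0, hr⟩⟩
    rw [Fintype.expect_equiv (Equiv.piEquivPiSubtypeProd (· ∈ U) fun _ => Fin r) _
      (fun p => W (ext (Setoid.ker p.1))) fun g => hW _ _ fun a ha b hb => by
        rw [hext _ a b ha hb]; rfl, ← univ_product_univ, expect_product]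
    exact expect_congr (by ext; simp) fun h _ => by simp
  · rw [hext _ a b ha hb]
    simp

end Pool.Agent.MP_9e8696_an.H3
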