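import Mathlib
import Pool.Agent.MP_9e8696_an.H67.Final
import Pool.Agent.MP_9e8696_an.H3.Node

/-!
Bounded functions of low degree that are invariant under renaming of vertices: all discrete
derivatives are uniformly small.
-/

namespace Pool.Agent.MP_9e8696_an.H3

open Finset Equiv
open scoped BigOperators

variable {V σ ι : Type}

/-- Permutations of the vertices that keep the colours. -/
def CP (col : V → σ) : Subgroup (Perm V) where
  carrier := {π | ∀ v, col (π v) = col v}
  one_mem' := fun _ => rfl
  mul_mem' := fun {a b} ha hb v => (ha (b v)).trans (hb v)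
  inv_mem' := fun {a} ha v => by simpa using (ha (a⁻¹ v)).symm

lemma ext_perm [DecidableEq V] (col : V → σ) (a b : V → V) (U : Finset V)
    (h : ∀ u ∈ U, ∀ v ∈ U, a u = a v ↔ b u = b v) (hc : ∀ u, col (a u) = col (b u)) :
    ∃ θ : CP col, ∀ u ∈ U, θ.1 (a u) = b u := by
  induction U using Finset.induction_on with
  | empty => exact ⟨1, by simp⟩
  | insert w U hw ih =>
    obtain ⟨θ, hθ⟩ := ih fun u hu v hv => h u (mem_insert_of_mem hu) v (mem_insert_of_mem hv)
    by_cases h1 : ∃ u ∈ U, a w = a u
    · obtain ⟨u, hu, h1⟩ := h1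
      refine ⟨θ, (forall_mem_insert _ _ _).2 ⟨?_, hθ⟩⟩
      rw [h1, hθ u hu, (h w (mem_insert_self _ _) u (mem_insert_of_mem hu)).1 h1]
    · push Not at h1
      have h2 : swap (θ.1 (a w)) (b w) ∈ CP col := fun v => by
        have := (θ.2 (a w)).trans (hc w)
        rw [swap_apply_def]
        split_ifs with e1 e2
        · rw [e1, this]
        · rw [e2, this]
        · rfl
      refine ⟨⟨_, h2⟩ * θ, (forall_mem_insert _ _ _).2 ⟨swap_apply_left _ _, fun u hu => ?_⟩⟩
      show swap (θ.1 (a w)) (b w) (θ.1 (a u)) = b u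
      rw [swap_apply_of_ne_of_ne (θ.1.injective.ne (h1 u hu).symm), hθ u hu]
      rw [hθ u hu]
      exact fun e => h1 u hu ((h w (mem_insert_self _ _) u (mem_insert_of_mem hu)).2 e.symm)

/-- A representative of the class of a vertex, of the same colour. -/
noncomputable def rep (col : V → σ) (κ : Setoid V) (v : V) : V :=
  (Quotient.mk (κ ⊓ Setoid.ker col) v).out

lemma rep_rel (col : V → σ) (κ : Setoid V) (v : V) :
    κ (rep col κ v) v ∧ col (rep col κ v) = col v :=
  Quotient.exact (Quotient.out_eq (Quotient.mk (κ ⊓ Setoid.ker col) v))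

lemma rep_eq (col : V → σ) (κ : Setoid V) (u v : V) :
    rep col κ u = rep col κ v ↔ κ u v ∧ col u = col v :=
  Quotient.out_inj.trans Quotient.eq

lemma card_small (B : Finset V) (k : ℕ) :
    (B.powerset.filter fun A => A.card ≤ k).card ≤ (B.card + 1) ^ k := by
  classical
  have h : (B.powerset.filter fun A => A.card ≤ k) ⊆
      (range (k + 1)).biUnion fun j => B.powersetCard j := fun A hA => by
    simp only [mem_filter, mem_powerset] at hA
    exact mem_biUnion.2 ⟨A.card, mem_range.2 (by omega), mem_powersetCard.2 ⟨hA.1, rfl⟩⟩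
  refine (card_le_card h).trans (card_biUnion_le.trans ?_)
  rw [add_pow]
  refine sum_le_sum fun j hj => ?_
  rw [card_powersetCard, one_pow, mul_one, Nat.cast_id]
  exact (Nat.choose_le_pow _ _).trans
    (Nat.le_mul_of_pos_right _ (Nat.choose_pos (by simpa [Nat.lt_succ_iff] using hj)))

open Classical in
/-- Pull back of a point of the cube along an arbitrary map of the vertices. -/
noncomputable def pull (col : V → σ) (supp : ι → Finset V) (act : Perm V → ι → ι) (h : V → V)
    (x : ι → Bool) (e : ι) : Bool :=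
  if H : ∃ τ : CP col, ∀ v ∈ supp e, τ.1 v = h v then x (act H.choose.1 e) else false

noncomputable instance [Finite V] (col : V → σ) : Fintype (CP col) := Fintype.ofFinite _

variable [Fintype V] [DecidableEq V] [Fintype σ] [Fintype ι] [DecidableEq ι]

/-- Variables attached to small sets of vertices, permuted by renamings. -/
structure Str (col : V → σ) (supp : ι → Finset V) (act : Perm V → ι → ι) (k t : ℕ) : Prop where
  hk : ∀ e, (supp e).card ≤ k
  ht : ∀ A, (univ.filter fun e => supp e = A).card ≤ t
  loc : ∀ π ∈ CP col, ∀ π' ∈ CP col, ∀ e, (∀ v ∈ supp e, π v = π' v) → act π e = act π' e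
  equi : ∀ π ∈ CP col, ∀ e, supp (act π e) = (supp e).image π

/-- The average of `g` over the pull backs with kernel `κ`. -/
noncomputable def av (col : V → σ) (supp : ι → Finset V) (act : Perm V → ι → ι)
    (g : (ι → Bool) → ℝ) (x : ι → Bool) (κ : Setoid V) : ℝ :=
  𝔼 π : CP col, g (pull col supp act (π.1 ∘ rep col κ) x)

variable {col : V → σ} {supp : ι → Finset V} {act : Perm V → ι → ι} {k t : ℕ}

omit [Fintype V] [DecidableEq V] [Fintype σ] [Fintype ι] [DecidableEq ι] in
lemma pull_congr {h h' : V → V} (x : ι → Bool) (e : ι) (hh : ∀ v ∈ supp e, h v = h' v) :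
    pull col supp act h x e = pull col supp act h' x e := by
  classical
  have : (fun τ : CP col => ∀ v ∈ supp e, τ.1 v = h v) =
      fun τ : CP col => ∀ v ∈ supp e, τ.1 v = h' v :=
    funext fun τ => propext (forall₂_congr fun v hv => by rw [hh v hv])
  unfold pull
  change (if H : Exists (fun τ : CP col => ∀ v ∈ supp e, τ.1 v = h v) then _ else _) =
    (if H : Exists (fun τ : CP col => ∀ v ∈ supp e, τ.1 v = h' v) then _ else _)
  simp only [this]

omit [Fintype V] [Fintype σ] [DecidableEq ι] in
lemma pull_perm (S : Str col supp act k t) (π : CP col) (x : ι → Bool) :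
    pull col supp act π.1 x = x ∘ act π.1 := by
  funext e
  have H : ∃ τ : CP col, ∀ v ∈ supp e, τ.1 v = π.1 v := ⟨π, fun _ _ => rfl⟩
  rw [pull, dif_pos H, S.loc _ H.choose.2 _ π.2 e H.choose_spec]
  rfl

omit [Fintype V] [Fintype σ] in
lemma pull_update (S : Str col supp act k t) (h : V → V) (x : ι → Bool) (j : ι) (b : Bool)
    (hj : ¬ ∀ v ∈ supp j, v ∈ Set.range h) :
    pull col supp act h (Function.update x j b) = pull col supp act h x := by
  funext e
  unfold pull
  split_ifs with H
  · refine Function.update_of_ne (fun he => hj fun v hv => ?_) _ _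
    rw [← he, S.equi _ H.choose.2, mem_image] at hv
    obtain ⟨u, hu, rfl⟩ := hv
    exact ⟨u, (H.choose_spec u hu).symm⟩
  · rfl

omit [Fintype σ] [DecidableEq ι] in
lemma av_bot (S : Str col supp act k t) (g : (ι → Bool) → ℝ)
    (hg : ∀ π ∈ CP col, ∀ x, g (x ∘ act π) = g x) (x : ι → Bool) : av col supp act g x ⊥ = g x := by
  have h : rep col ⊥ = id := funext fun v => (rep_rel col ⊥ v).1
  unfold av
  rw [expect_congr rfl fun π _ => by rw [h, Function.comp_id, pull_perm S, hg π.1 π.2 x]]
  exact Fintype.expect_const _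

omit [Fintype σ] [Fintype ι] [DecidableEq ι] in
lemma av_chi (T : Finset ι) (x : ι → Bool) (κ κ' : Setoid V)
    (h : ∀ a ∈ T.biUnion supp, ∀ b ∈ T.biUnion supp, κ a b ↔ κ' a b) :
    av col supp act (H67.chi T) x κ = av col supp act (H67.chi T) x κ' := by
  obtain ⟨θ, hθ⟩ := ext_perm col (rep col κ') (rep col κ) (T.biUnion supp)
    (fun u hu v hv => by rw [rep_eq, rep_eq, h u hu v hv])
    fun u => (rep_rel col κ' u).2.trans (rep_rel col κ u).2.symm
  refine Fintype.expect_equiv (Equiv.mulRight θ) _ _ fun π => ?_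
  refine prod_congr rfl fun e he => congrArg _ (pull_congr x e fun v hv => ?_)
  show π.1 (rep col κ v) = π.1 (θ.1 (rep col κ' v))
  rw [hθ v (mem_biUnion.2 ⟨e, he, hv⟩)]

omit [Fintype σ] in
lemma pol_av (S : Str col supp act k t) (f : (ι → Bool) → ℝ) (d : ℕ)
    (hd : H67.DegLe (H67.fc f) d) (hf : ∀ π ∈ CP col, ∀ x, f (x ∘ act π) = f x) (x : ι → Bool) :
    Pol (k * d) (fun r => 𝔼 g : V → Fin r, av col supp act f x (Setoid.ker g)) (f x) := by
  have h1 : ∀ κ, av col supp act f x κ =
      ∑ T, H67.fc f T * av col supp act (H67.chi T) x κ := fun κ => by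
    unfold av
    simp only [mul_expect]
    rw [← expect_sum_comm]
    simp only [H67.fourier_inv]
  refine (Pol.sum univ (H67.fc f) fun T _ hT =>
    (pol_ker (T.biUnion supp) (av col supp act (H67.chi T) x) (av_chi T x)).mono ?_).congr
      (fun r _ => ?_) ?_
  · have h2 : T.card ≤ d := not_lt.1 fun h => hT (hd T h)
    refine (card_biUnion_le_card_mul _ _ k fun e _ => S.hk e).trans ?_
    rw [mul_comm]
    exact Nat.mul_le_mul_left k h2
  · simp only [h1, mul_expect]
    rw [← expect_sum_comm]
  · rw [← h1, av_bot S f hf]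

omit [DecidableEq ι] in
open Classical in
lemma count_le (S : Str col supp act k t) (r : ℕ) (g : V → Fin r) (π : Perm V) :
    (univ.filter fun j => ∀ v ∈ supp j, v ∈ Set.range (π ∘ rep col (Setoid.ker g))).card ≤
      t * (Fintype.card σ * r + 1) ^ k := by
  set B := univ.image (π ∘ rep col (Setoid.ker g))
  have hB : B.card ≤ Fintype.card σ * r := by
    have := card_le_card_of_injOn (s := B) (t := (univ : Finset (σ × Fin r)))
      (fun v => (col (π⁻¹ v), g (π⁻¹ v))) (fun _ _ => by simp) fun a ha b hb hab => by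
        obtain ⟨u, -, rfl⟩ := mem_image.1 (mem_coe.1 ha)
        obtain ⟨v, -, rfl⟩ := mem_image.1 (mem_coe.1 hb)
        have hu := rep_rel col (Setoid.ker g) u
        have hv := rep_rel col (Setoid.ker g) v
        simp only [Function.comp_apply, Perm.coe_inv, symm_apply_apply, Prod.mk.injEq,
          Setoid.ker_def] at hab hu hv
        refine congrArg π ((rep_eq _ _ _ _).2 ⟨?_, ?_⟩)
        · exact hu.1.symm.trans (hab.2.trans hv.1)
        · exact hu.2.symm.trans (hab.1.trans hv.2)
    simpa using this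
  refine (card_le_mul_card_image_of_maps_to (f := supp)
    (t := B.powerset.filter fun A => A.card ≤ k) (fun j hj => ?_) t fun A _ => ?_).trans ?_
  · refine mem_filter.2 ⟨mem_powerset.2 fun v hv => ?_, S.hk j⟩
    obtain ⟨u, hu⟩ := (mem_filter.1 hj).2 v hv
    exact mem_image.2 ⟨u, mem_univ _, hu⟩
  · exact (card_le_card (filter_subset_filter _ (filter_subset _ _))).trans (S.ht A)
  · exact Nat.mul_le_mul_left t ((card_small B k).trans (Nat.pow_le_pow_left (by omega) k))

/-- The sup norms of the derivatives have a bounded sum. -/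
theorem deriv_bound (S : Str col supp act k t) (f : (ι → Bool) → ℝ) (d : ℕ) (hkd : 1 ≤ k * d)
    (hd : H67.DegLe (H67.fc f) d) (hf : ∀ π ∈ CP col, ∀ x, f (x ∘ act π) = f x) (M : ℝ)
    (hM : ∀ x, |f x| ≤ M) : ∃ β : ι → ℝ,
      (∀ j x, |(f (Function.update x j false) - f (Function.update x j true)) / 2| ≤ β j) ∧
      ∑ j, β j ≤ M * (288 * (k * d : ℕ) ^ 4 * t *
        (144 * (k * d : ℕ) ^ 4 * Fintype.card σ + 1) ^ k) := by
  classical
  have hM0 : 0 ≤ M := (abs_nonneg _).trans (hM default)
  let p : ι → ℕ → ℝ := fun j r => 𝔼 g : V → Fin r, 𝔼 π : CP col,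
    if ∀ v ∈ supp j, v ∈ Set.range (π.1 ∘ rep col (Setoid.ker g)) then 1 else 0
  refine ⟨fun j => 2 * M * ∑ r ∈ Icc 1 (144 * (k * d) ^ 4), p j r, fun j x => ?_, ?_⟩
  · have h1 := ((pol_av S f d hd hf (Function.update x j false)).sub
      (pol_av S f d hd hf (Function.update x j true))).bound hkd
    rw [abs_div, abs_two, div_le_iff₀ two_pos, mul_comm]
    refine h1.trans (mul_le_mul_of_nonneg_left ?_ two_pos.le)
    beta_reduce
    rw [mul_sum]
    refine sum_le_sum fun r _ => ?_
    simp only [p, av, ← expect_sub_distrib, mul_expect]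
    refine (abs_expect_le _ _).trans (expect_le_expect fun g _ => ?_)
    refine (abs_expect_le _ _).trans (expect_le_expect fun π _ => ?_)
    split_ifs with h
    · refine (abs_sub _ _).trans ?_
      linarith [hM (pull col supp act (π.1 ∘ rep col (Setoid.ker g)) (Function.update x j false)),
        hM (pull col supp act (π.1 ∘ rep col (Setoid.ker g)) (Function.update x j true))]
    · rw [pull_update S _ _ _ _ h, pull_update S _ _ _ _ h]
      simp
  · rw [← mul_sum, sum_comm]
    have h1 : ∀ r ∈ Icc 1 (144 * (k * d) ^ 4), ∑ j, p j r ≤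
        t * (144 * (k * d : ℕ) ^ 4 * Fintype.card σ + 1) ^ k := fun r hr => by
      have : Nonempty (Fin r) := ⟨⟨0, (mem_Icc.1 hr).1⟩⟩
      simp only [p]
      rw [← expect_sum_comm]
      refine expect_le univ_nonempty fun g _ => ?_
      rw [← expect_sum_comm]
      refine expect_le univ_nonempty fun π _ => ?_
      rw [sum_boole]
      have h2 := (count_le S r g π.1).trans (Nat.mul_le_mul_left t (Nat.pow_le_pow_left
        (Nat.add_le_add_right (Nat.mul_le_mul_left _ (mem_Icc.1 hr).2) 1) k))
      rw [mul_comm (Fintype.card σ)] at h2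
      exact_mod_cast h2
    have h2 := sum_le_card_nsmul _ _ _ h1
    rw [Nat.card_Icc, Nat.add_sub_cancel, nsmul_eq_mul] at h2
    refine (mul_le_mul_of_nonneg_left h2 (by positivity)).trans (le_of_eq ?_)
    push_cast
    ring

end Pool.Agent.MP_9e8696_an.H3
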